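import Mathlib
import Pool.Agent.H26BC.F
import Pool.Agent.H26BC.H

/-!
The weak form of the conjecture of Manin over the rational numbers for the Fano varieties `X` of
dimension `m` and Picard number `m` which are given by a cycle of `m ≥ 4` bilinear equations
`x_i ᵀ A_i x_{i+1} = 0` (`i` modulo `m`) in `(ℙ²)^m`, for all big line bundles, in particular all big and
nef ones.

* `A i`: integer `3 × 3` matrices; `OnX A x`: the point `x = (x_0, …, x_{m-1})` satisfies the `m`
  equations, which define `X`.
* `Smooth`: at every complex point of `X` the gradients of the `m` equations are linearly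
  independent. The first part of the theorem says that then the determinants of all `A i` are not
  zero, and the open set `U` contains an integral point; the bounds are proved under the weaker
  hypothesis on the determinants.
* `vc A x i` is the vector product of `A_{i-1} ᵀ x_{i-1}` and `A_i x_{i+1}`. On `X` it is `e_i x_i`, where
  `e_i` is a section of the line bundle `E_i = H_{i-1} + H_{i+1} - H_i` (`H_i` is the pullback of a line of
  the factor with the number `i`). The zeros of `e_i` are the exceptional divisor of the contraction of
  `X` which forgets `x_i`. The open set `U` (`InU A x`) is the complement of these `m` divisors.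
* `Rep v`: `v` is the normalised primitive integer representative of a rational point of a
  projective space (greatest common divisor of the coordinates `1`, first nonzero coordinate
  positive); `ht v` is its height, the maximum of the absolute values of the coordinates.
* The effective cone of `X` is generated by the `H_i` and the `E_i` (`EffCone m`); in the coordinates
  `L = ∑ l_i H_i` it is given by `l_i + l_{i+1} ≥ 0` and `l_i + l_{i+1} + l_{i+2} ≥ 0` for all `i`; here the
  left sides are the degrees of `L` on moving curves, which have degree 1 over two or three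
  consecutive factors and degree 0 over the others. So `L` is big if and only if all these numbers are
  positive. We have `K = (-1, …, -1)`; `fuj l` is the infimum of all `t` such that `t L + K` is in the cone,
  so `fuj l = a(X, L)`; it is the maximum of all `2 / (l_i + l_{i+1})` and `3 / (l_i + l_{i+1} + l_{i+2})`.

The theorem: for all big `L` and all `ε > 0` the number of rational points of `U` with
`∏ H(x_i) ^ l_i ≤ T` is finite and at most `D T ^ (fuj l + ε)`.

The proof: the number of the points in the box `H(x_i) ~ X_i` is at most `(∏ X_i) ^ (1 + ε)`: for given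
`x_{i-1}` and `x_{i+2}` there are at most `(1 + X_i X_{i+1} / (X_{i-1} X_{i+2})) ^ (1 + ε)` pairs
`(x_i, x_{i+1})`, because `e_i e_{i+1}` is a nonzero value of a fixed bilinear form at these two points, and
for a given divisor `e_{i+1}` the vector `x_i` is in a lattice of rank 2 and a parallelogram of known
areas. The cycle is then divided into single edges of this kind and single vertices of small height by
an induction on the number of the vertices.
-/

namespace Pool.Agent.Results.MP_18ea5f_nt.BilinearCycles

open Pool.Agent.H26BC
open Pool.Agent.H548.WM (ht Rep)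

theorem result (m : ℕ) [NeZero m] (hm : 4 ≤ m) (A : ZMod m → Matrix (Fin 3) (Fin 3) ℤ) :
    (Smooth (fun i => (A i).map (Int.castRingHom ℂ)) →
      (∀ i, (A i).det ≠ 0) ∧ ∃ x : ZMod m → Fin 3 → ℤ, InU A x) ∧
    ((∀ i, (A i).det ≠ 0) →
      ∀ l : ZMod m → ℝ, (∀ i, 0 < l i + l (i + 1) ∧ 0 < l i + l (i + 1) + l (i + 2)) →
        IsLeast {t : ℝ | ∀ i, 2 ≤ t * (l i + l (i + 1)) ∧
          3 ≤ t * (l i + l (i + 1) + l (i + 2))} (fuj l) ∧
        ∀ ε : ℝ, 0 < ε → ∃ D : ℝ, ∀ T : ℝ, 1 ≤ T →
          {x : ZMod m → Fin 3 → ℤ | (∀ i, Rep (x i)) ∧ InU A x ∧
            ∏ i, (ht (x i) : ℝ) ^ l i ≤ T}.Finite ∧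
          ({x : ZMod m → Fin 3 → ℤ | (∀ i, Rep (x i)) ∧ InU A x ∧
            ∏ i, (ht (x i) : ℝ) ^ l i ≤ T}.ncard : ℝ) ≤ D * T ^ (fuj l + ε)) :=
  ⟨Smooth.main hm, fun hA l hl => ⟨fuj_least hl, fun ε hε => upper hm hA l (mem_int hl) ε hε⟩⟩

end Pool.Agent.Results.MP_18ea5f_nt.BilinearCycles
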