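import Mathlib
import Pool.Agent.H26BT.F

/-!
The weak form of the conjecture of Manin over the rational numbers for the Fano threefolds `X` of
Picard number 3 which are given by three bilinear equations
`x ᵀ A y = 0`, `y ᵀ B z = 0`, `z ᵀ C x = 0` in `ℙ² × ℙ² × ℙ²` (the family 3.13 of Mori and Mukai, with
infinitely many isomorphism classes), for all big line bundles, in particular all big and nef ones.

* `A`, `B`, `C`: integer `3 × 3` matrices; `Tri A B C x y z`: the point `(x, y, z)` satisfies the three
  equations, which define `X`.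
* `Smooth A B C`: at every complex point of `X` the gradients of the three equations are linearly
  independent. The first part of the theorem says that then the determinants of `A`, `B`, `C` are not
  zero; the bounds are proved under this weaker hypothesis.
* `psi A B C x = x ᵀ A (adj B) ᵀ C x`. The vector product of `B ᵀ y` and `C x` is a multiple `e₃ z` of
  `z`, and similarly `e₁ x` and `e₂ y` are vector products of vectors given by `y`, `z` and by `z`, `x`;
  `e₁, e₂, e₃` are sections of the line bundles `(-1,1,1)`, `(1,-1,1)`, `(1,1,-1)`, and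
  `psi A B C x = e₂ e₃` etc. If `X` is smooth, their zeros are the exceptional divisors of the
  contractions of `X` to the flag varieties in `ℙ² × ℙ²` (blow-ups of rational curves), and their classes
  generate the effective cone. The open set `U` (`InU A B C x y z`) is the complement of the three
  divisors: `psi A B C x ≠ 0`, `psi B C A y ≠ 0`, `psi C A B z ≠ 0`.
* `Rep v`: `v` is the normalised primitive integer representative of a rational point of a
  projective space (greatest common divisor of the coordinates `1`, first nonzero coordinate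
  positive); `ht v` is its height, the maximum of the absolute values of the coordinates.
* `L = (l 0, l 1, l 2)` in terms of the pullbacks of the hyperplanes of the three factors is big if and
  only if `l i + l j > 0` for all `i ≠ j`, and `K = (-1,-1,-1)`. `fuj l` is the infimum of all `t` such
  that `t L + K` is in the effective cone.

The theorem: `U` is not empty; for all big `L` and all `ε > 0` the number of rational points of `U` with
`H(x) ^ l 0 * H(y) ^ l 1 * H(z) ^ l 2 ≤ T` is finite and at most `C T ^ (fuj l + ε)`.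

The proof: let `H(x) ≤ H(y), H(z)`. For given `x` the integer `e₃` is a divisor of `psi A B C x ≠ 0`, so
there are few `e₃`. For given `x` and `e₃` the vector `y` is in a lattice of rank 2, whose determinant
is at least a constant times `H(x) |e₃|`, and in a parallelogram of area at most a constant times
`|e₃| H(y) H(z) / H(x)`. A primitive vector in such a lattice can be chosen in at most
`C (1 + H(y) H(z) / H(x) ^ 2)` ways.
-/

namespace Pool.Agent.Results.MP_18ea5f_nt.BilinearTriangles

open Pool.Agent.H26BT
open Pool.Agent.H548.WM (ht Rep)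

theorem result (A B C : Matrix (Fin 3) (Fin 3) ℤ) :
    (Smooth (A.map (Int.castRingHom ℂ)) (B.map (Int.castRingHom ℂ)) (C.map (Int.castRingHom ℂ)) →
      A.det ≠ 0 ∧ B.det ≠ 0 ∧ C.det ≠ 0) ∧
    (A.det ≠ 0 → B.det ≠ 0 → C.det ≠ 0 →
      (∃ x y z : Fin 3 → ℤ, InU A B C x y z) ∧
      ∀ l : Fin 3 → ℝ, 0 < l 1 + l 2 → 0 < l 0 + l 2 → 0 < l 0 + l 1 →
        fuj l = max (2 / (l 1 + l 2)) (max (2 / (l 0 + l 2)) (2 / (l 0 + l 1))) ∧
        ∀ ε : ℝ, 0 < ε → ∃ D : ℝ, ∀ T : ℝ, 1 ≤ T →
          {t : (Fin 3 → ℤ) × (Fin 3 → ℤ) × (Fin 3 → ℤ) | (Rep t.1 ∧ Rep t.2.1 ∧ Rep t.2.2) ∧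
            InU A B C t.1 t.2.1 t.2.2 ∧
            (ht t.1 : ℝ) ^ l 0 * (ht t.2.1 : ℝ) ^ l 1 * (ht t.2.2 : ℝ) ^ l 2 ≤ T}.Finite ∧
          ({t : (Fin 3 → ℤ) × (Fin 3 → ℤ) × (Fin 3 → ℤ) | (Rep t.1 ∧ Rep t.2.1 ∧ Rep t.2.2) ∧
            InU A B C t.1 t.2.1 t.2.2 ∧
            (ht t.1 : ℝ) ^ l 0 * (ht t.2.1 : ℝ) ^ l 1 * (ht t.2.2 : ℝ) ^ l 2 ≤ T}.ncard : ℝ) ≤
            D * T ^ (fuj l + ε)) := by
  constructor
  · intro h
    have e : ∀ M : Matrix (Fin 3) (Fin 3) ℤ, (M.map (Int.castRingHom ℂ)).det ≠ 0 → M.det ≠ 0 := by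
      intro M h1 h2
      apply h1
      have h3 := RingHom.map_det (Int.castRingHom ℂ) M
      rw [h2, map_zero] at h3
      exact h3.symm
    exact ⟨e A h.det, e B h.rot.det, e C h.rot.rot.det⟩
  · intro hA hB hC
    exact ⟨nonempty hA hB hC, fun l h0 h1 h2 => ⟨fuj_eq l h0 h1 h2,
      fun ε hε => upper hA hB hC l h0 h1 h2 ε hε⟩⟩

end Pool.Agent.Results.MP_18ea5f_nt.BilinearTriangles
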