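import Mathlib
import Pool.Agent.H39b.Fin

set_option autoImplicit false

/-!
# The weak Manin conjecture on every blow-up of the projective space, for an open cone of polarisations

Let `X` be any smooth projective variety over the rational numbers with a birational morphism
`π : X → ℙⁿ`, and `M_1, ..., M_s` any globally generated line bundles on `X` (for instance very ample
ones whose classes span the space of all divisor classes). On `ℙⁿ` the morphism given by `M_j` is a
rational map given by forms `f_j0, f_j1, ...` of the same degree `d_j` without common factor, and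
the height of `P` for `M_j` is the height of the point `(f_j0(P) : f_j1(P) : ...)`. We prove that
there is `κ` such that the weak Manin conjecture holds for all line bundles
`L = α π^* O(1) + ∑ β_j M_j` with `α ≥ κ ∑ β_j`. For large `κ` the Fujita invariant of `L` is
`a(X, L) = (n + 1) / (α + ∑ β_j d_j)`: by projection to `ℙⁿ` it is at least this number, and for it
`a L + K_X` is effective since every exceptional divisor occurs in `K_X - π^* K` with a coefficient
at least `1`. The open set `U` is the complement of the centres, i.e. of the common zeros of the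
forms `f_j0, f_j1, ...` for every `j`.

Proof. One has to show that only few points of `ℙⁿ` are close to the centres, archimedean or
modulo a large integer: for `1 ≤ a ≤ B^d` at most `C B^(n + 1 + ε) a^(-δ)` points `P` of height at
most `B` satisfy `H(f(P)) ≤ H(P)^d / a`. On a line a polynomial of degree `d` is small or divisible
by a large integer `g` at few integers, by the interpolation formula for its leading coefficient; for
almost all lines there are few `g`, by elimination and the divisor bound.
-/

namespace Pool.Agent.Results.MP_18ea5f_nt.BlowUpsOfProjectiveSpace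

open MvPolynomial

variable {n : ℕ}

/-- the coordinates `(f_0(P), f_1(P), ...)` of the image of the point `P` of `ℙⁿ` -/
noncomputable def image {k : ℕ} (f : Fin (k + 1) → MvPolynomial (Fin (n + 1)) ℤ)
    (P : Projectivization ℚ (Fin (n + 1) → ℚ)) : Fin (k + 1) → ℚ := fun i => aeval P.rep (f i)

/-- the forms `f_0, f_1, ...` are homogeneous of degree `d`, not all zero, and have no common
factor except constants -/
def Coprime {k : ℕ} (d : ℕ) (f : Fin (k + 1) → MvPolynomial (Fin (n + 1)) ℤ) : Prop :=
  (∀ i, (f i).IsHomogeneous d) ∧ (∃ i, f i ≠ 0) ∧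
    ∀ g : MvPolynomial (Fin (n + 1)) ℤ, (∀ i, g ∣ f i) → g.totalDegree = 0

/-- the rational points of `U` of height at most `T` for `L = α π^* O(1) + ∑ β_j M_j` -/
def points {ι : Type} [Fintype ι] {k : ι → ℕ}
    (f : ∀ j, Fin (k j + 1) → MvPolynomial (Fin (n + 1)) ℤ) (α : ℝ) (β : ι → ℝ) (T : ℝ) :
    Set (Projectivization ℚ (Fin (n + 1) → ℚ)) :=
  {P | (∀ j, image (f j) P ≠ 0) ∧
    P.mulHeight ^ α * ∏ j, Height.mulHeight (image (f j) P) ^ β j ≤ T}

theorem result {ι : Type} [Fintype ι] (k d : ι → ℕ) (hd : ∀ j, 1 ≤ d j)
    (f : ∀ j, Fin (k j + 1) → MvPolynomial (Fin (n + 1)) ℤ) (hf : ∀ j, Coprime (d j) (f j)) :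
    ∃ κ : ℝ, ∀ (α : ℝ) (β : ι → ℝ), 0 < α → (∀ j, 0 ≤ β j) → κ * ∑ j, β j ≤ α →
      ∀ ε : ℝ, 0 < ε → ∃ C : ℝ, ∀ T : ℝ, 1 ≤ T →
        (points f α β T).Finite ∧
        ((points f α β T).ncard : ℝ) ≤ C * T ^ (((n : ℝ) + 1) / (α + ∑ j, β j * d j) + ε) :=
  Pool.Agent.H39b.final k d hd f (fun j => (hf j).1) (fun j => (hf j).2.1) (fun j => (hf j).2.2)

end Pool.Agent.Results.MP_18ea5f_nt.BlowUpsOfProjectiveSpace
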