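import Mathlib
import Pool.Agent.H26CC.E

/-!
The weak form of the conjecture of Manin for the variety `X` of complete conics over the rational
numbers, i.e. the blow-up of `ℙ⁵` along the Veronese surface (a smooth Fano fivefold of Picard
number 2), and all big line bundles `L`, in particular all `L` which are big and nef.

* `sm q` is the symmetric `3 × 3` matrix with the coordinates `q : Fin 6 → R`; the points of `ℙ⁵`
  are the symmetric matrices `q ≠ 0` up to factors, i.e. the conics. `X ⊆ ℙ⁵ × ℙ⁵` consists of the
  pairs `(q, p)` for which `sm q * sm p` is a scalar matrix. The projection to the first factor is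
  the blow-up along the Veronese surface (the matrices `q` of rank 1), and so is the second one.
* The open set `U` consists of the pairs `(q, p)` for which `sm q * sm p` is a nonzero scalar matrix
  (`Inv q p`). The first projection maps it isomorphically to the set of the nondegenerate conics
  `q`, and `p` is the dual conic, i.e. `sm p` is a multiple of the adjugate of `sm q`.
* `Rep v`: `v` is the normalised primitive integer representative of a rational point of a
  projective space (greatest common divisor of the coordinates `1`, first nonzero coordinate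
  positive); `ht v` is its height, the maximum of the absolute values of the coordinates.
* `(l 0, l 1)` is the class of `L` in terms of the classes `(1,0)`, `(0,1)` of the pullbacks of
  hyperplanes by the two projections, which generate the nef cone. The pseudo-effective cone is
  generated by the classes `(2,-1)` and `(-1,2)` of the two exceptional divisors, i.e. `L` is big if
  and only if `2 l 0 + l 1 > 0` and `l 0 + 2 l 1 > 0`, and `K = (-2,-2)`. `fuj l` is the infimum of
  all `t` such that `t L + K` is in the pseudo-effective cone.

The theorem: `U` is not empty; for all big `L` and all `ε > 0` the number of rational points of `U`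
with `H(q) ^ l 0 * H(p) ^ l 1 ≤ T` is finite and at most `C T ^ (fuj l + ε)`.

The proof is elementary. Let `H(q) ≤ A ≤ B` and `H(p) ≤ B`, let `g` be the greatest common divisor of
the entries of the adjugate of `q`, and `s` the lower right `2 × 2` block of `q`. If `det s ≠ 0` then
`g` is a divisor of `det s`. For given `s`, `g` the other three coordinates of `q` are successively
in arithmetic progressions and short intervals, and the number of the choices is estimated by the
divisor bound and an average of greatest common divisors. It follows that there are at most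
`C (A B) ^ (2 + ε)` points; the two projections are symmetric.
-/

namespace Pool.Agent.Results.MP_18ea5f_nt.CompleteConics

open Pool.Agent.H26CC
open Pool.Agent.H548.WM (ht Rep)

theorem result :
    (∃ q p : Fin 6 → ℤ, Rep q ∧ Rep p ∧ Inv q p) ∧
    ∀ l : Fin 2 → ℝ, 0 < 2 * l 0 + l 1 → 0 < l 0 + 2 * l 1 →
      fuj l = max (6 / (2 * l 0 + l 1)) (6 / (l 0 + 2 * l 1)) ∧
      ∀ ε : ℝ, 0 < ε → ∃ C : ℝ, ∀ T : ℝ, 1 ≤ T →
        {t : (Fin 6 → ℤ) × (Fin 6 → ℤ) | Rep t.1 ∧ Rep t.2 ∧ Inv t.1 t.2 ∧
          (ht t.1 : ℝ) ^ l 0 * (ht t.2 : ℝ) ^ l 1 ≤ T}.Finite ∧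
        ({t : (Fin 6 → ℤ) × (Fin 6 → ℤ) | Rep t.1 ∧ Rep t.2 ∧ Inv t.1 t.2 ∧
          (ht t.1 : ℝ) ^ l 0 * (ht t.2 : ℝ) ^ l 1 ≤ T}.ncard : ℝ) ≤ C * T ^ (fuj l + ε) := by
  refine ⟨⟨![1, 0, 0, 1, 0, 1], ![1, 0, 0, 1, 0, 1], ?_, ?_, 1, one_ne_zero, ?_⟩,
    fun l h0 h1 => ⟨fuj_eq l h0 h1, fun ε hε => upper l h0 h1 ε hε⟩⟩
  · exact ⟨by decide, 0, by simp, by simp⟩
  · exact ⟨by decide, 0, by simp, by simp⟩
  · ext i j
    fin_cases i <;> fin_cases j <;> decide

end Pool.Agent.Results.MP_18ea5f_nt.CompleteConics
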